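import Pool.Agent.Helper63.SP.Red
import Pool.Agent.Helper63.PolyBox.Basic

set_option autoImplicit false

open Real Pool.Agent.Helper63.PolyBox

namespace Pool.Agent.Helper89.SP.Fact6

theorem pos_of_mul_pos_right' {C x : ℝ} (h : 0 < C * x) (hC : 0 < C := by norm_num) : 0 < x :=
  (mul_pos_iff_of_pos_left hC).mp h

namespace A1

def out : List (List (List ℤ)) := [[[-1024, 211], [-828]]]

theorem out_val (X Y Z : ℝ) : Rep.val [X, Y, Z] out = 256000 * (((1.066 - 2.6 * (((107 / 200) + (9 / 12800) * Y) - 0.535)) + (211 / 256000) * Z) - 2 * ((107 / 200) + (9 / 12800) * Y)) := by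
  simp only [out, Rep.val, lval]
  push_cast
  ring

def Di : List (List (List ℤ)) := [[[1765585076383341608960000, 12338914295881400320000, -90397757082173440000], [23329417918351933440000, 264327050758717440000, 354503983104000000], [-137963656037007360000, -846777286656000000], [340545503232000000]], [[-2878095174603374592000, 62097048811339776000, 55197583147008000], [-123291338715168768000, -510688842743808000, 123091660800000], [525129064906752000, -294019891200000], [118244966400000]], [[-9597420800940441600, -20218711847731200, 41604981350400], [22218702166425600, -352571852390400], [434002024857600]], [[2893150704107520, -51740033679360, -20002394880], [162535629127680, 88731002880], [-98403102720]], [[6032250372096, 9328131072, 3606201], [-20689883136, -15997176], [17740944]]]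

theorem Di_val (X Y Z : ℝ) : Rep.val [X, Y, Z] Di = 659706976665600000000000000 * (2 * ((1.066 - 2.6 * (((107 / 200) + (9 / 12800) * Y) - 0.535)) + (211 / 256000) * Z) ^ 2 * ((2 - ((27 / 20) + (3 / 6400) * X)) ^ 4 / 12) - (1 - ((27 / 20) + (3 / 6400) * X) * ((107 / 200) + (9 / 12800) * Y)) * ((((107 / 200) + (9 / 12800) * Y) + ((1.066 - 2.6 * (((107 / 200) + (9 / 12800) * Y) - 0.535)) + (211 / 256000) * Z) - ((27 / 20) + (3 / 6400) * X)) ^ 2 + (1 - ((107 / 200) + (9 / 12800) * Y) ^ 2 - ((1.066 - 2.6 * (((107 / 200) + (9 / 12800) * Y) - 0.535)) + (211 / 256000) * Z) ^ 2 / 2) / 3) - (4 * (((27 / 20) + (3 / 6400) * X) * ((107 / 200) + (9 / 12800) * Y)) - 2) * (17 / 100000) - (1 - ((27 / 20) + (3 / 6400) * X) * ((107 / 200) + (9 / 12800) * Y)) * (7 / 1000000)) := by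
  simp only [Di, Rep.val, lval]
  push_cast
  ring

def ci : List (List (List ℤ)) := [[[55501127680000], [-530841600000]], [[147718144000], [-184320000]], [[-311500800]], [[149760]], [[-27]]]

theorem ci_val (X Y Z : ℝ) : Rep.val [X, Y, Z] ci = (1677721600000000 / 3) * (1 - ((27 / 20) + (3 / 6400) * X) * ((107 / 200) + (9 / 12800) * Y) - 12 * ((2 - ((27 / 20) + (3 / 6400) * X)) ^ 4 / 12)) := by
  simp only [ci, Rep.val, lval]
  push_cast
  ring

def alts : List (List (List (List (List ℤ)))) := [[out], [Di, ci]]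

theorem run_ok : run alts 22 0x555025045412555025021 [[(0, 256), (0, 64), (0, 256)]] = true := by decide +kernel

theorem main {t p q r : ℝ} (hp0 : (107 / 200) ≤ p) (hp1 : p ≤ (29 / 50)) (ht0 : (27 / 20) ≤ t) (ht1 : t ≤ (147 / 100))
    (hr : 0 < r) (hrq : r ≤ q) (hqp : q ≤ p) (hsq : p ^ 2 + q ^ 2 + r ^ 2 ≤ 1) (htp : t * p < 1)
    (hS : 1.066 - 2.6 * (p - 0.535) ≤ q + r) : Beats t p q r (T4 t) := by
  have hv0 : 0 ≤ vv p q r := by unfold vv; linarith
  have hv1 : vv p q r ≤ (711 / 10000) := by
    unfold vv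
    nlinarith [sq_nonneg (q - r), mul_nonneg (sub_nonneg.mpr hp0) (sub_nonneg.mpr hp1), mul_self_le_mul_self (by linarith : (0:ℝ) ≤ 1.066 - 2.6 * (p - 0.535)) hS]
  have h1 : Kb (vv p q r) (t + p - q - r) ≤ (17 / 100000) :=
    Kb_le hv0 hv1 (s0 := (77 / 100)) (by norm_num) (by linarith) (by norm_num)
  have h2 : Kb (vv p q r) (t - p + q + r) ≤ (7 / 1000000) :=
    Kb_le hv0 hv1 (s0 := (1719 / 1000)) (by norm_num) (by linarith) (by norm_num)
  have htp0 : 0 ≤ 4 * (t * p) - 2 := by nlinarith
  have htp1 : 0 ≤ 3 * (t * p) - 1 := by nlinarith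
  have hA : 0 ≤ 1 - t * p := by linarith
  obtain ⟨X, hX⟩ : ∃ X, t = (27 / 20) + (3 / 6400) * X := ⟨(t - (27 / 20)) / (3 / 6400), by ring⟩
  obtain ⟨Y, hY⟩ : ∃ Y, p = (107 / 200) + (9 / 12800) * Y := ⟨(p - (107 / 200)) / (9 / 12800), by ring⟩
  obtain ⟨Z, hZ⟩ : ∃ Z, q + r = (1.066 - 2.6 * (p - 0.535)) + (211 / 256000) * Z := ⟨(q + r - (1.066 - 2.6 * (p - 0.535))) / (211 / 256000), by ring⟩
  have hbox : InBox [(0, 256), (0, 64), (0, 256)] [X, Y, Z] := by
    unfold InBox
    refine List.Forall₂.cons ⟨?_, ?_⟩ (List.Forall₂.cons ⟨?_, ?_⟩ (List.Forall₂.cons ⟨?_, ?_⟩ List.Forall₂.nil)) <;> push_cast <;> linarith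
  obtain ⟨ps, hps, hpos⟩ := run_sound _ _ _ _ run_ok _ (by simp) _ hbox
  rw [hY] at hZ
  simp only [alts, List.mem_cons, List.not_mem_nil, or_false] at hps
  rcases hps with rfl | rfl
  · have e0 := hpos out (by simp)
    rw [out_val] at e0
    have f0 := pos_of_mul_pos_right' e0
    exfalso; rw [← hY] at f0; rw [← hY] at hZ; linarith
  · have e0 := hpos Di (by simp)
    rw [Di_val] at e0
    have f0 := pos_of_mul_pos_right' e0
    have e1 := hpos ci (by simp)
    rw [ci_val] at e1
    have f1 := pos_of_mul_pos_right' e1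
    rw [← hZ, ← hX, ← hY] at f0
    rw [← hX, ← hY] at f1
    exact beats_i (by unfold T4; linarith) (by unfold T4; positivity) htp0 h1 h2 (by unfold T4; exact f0)

end A1

namespace A2

def Di : List (List (List ℤ)) := [[[33199680636829822877696, 1630169724308288438272, -4616290482676301824], [-245975338521760628736, 6994031871969460224, 24125965516800000], [1458587996566585344, -57627898675200000], [23176013414400000]], [[-282041216282608533504, 1758273503464783872, 3033696283262976], [-3386798858657857536, -28118081602584576, 5128819200000], [30382576625516544, -12250828800000], [4926873600000]], [[-138986213829771264, -1563530203496448, 768365500416], [3858624229146624, -8075466326016], [10150124027904]], [[167966205280256, -781259767808, -302030464], [2617577570304, 1339812864], [-1485858816]], [[74472226816, 115162112, 44521], [-255430656, -197496], [219024]]]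

theorem Di_val (X Y Z : ℝ) : Rep.val [X, Y, Z] Di = 41231686041600000000000000 * (2 * ((1.066 - 2.6 * (((107 / 200) + (9 / 12800) * Y) - 0.535)) + (211 / 256000) * Z) ^ 2 * ((2 - ((147 / 100) + (1 / 3200) * X)) ^ 4 / 12) - (1 - ((147 / 100) + (1 / 3200) * X) * ((107 / 200) + (9 / 12800) * Y)) * ((((107 / 200) + (9 / 12800) * Y) + ((1.066 - 2.6 * (((107 / 200) + (9 / 12800) * Y) - 0.535)) + (211 / 256000) * Z) - ((147 / 100) + (1 / 3200) * X)) ^ 2 + (1 - ((107 / 200) + (9 / 12800) * Y) ^ 2 - ((1.066 - 2.6 * (((107 / 200) + (9 / 12800) * Y) - 0.535)) + (211 / 256000) * Z) ^ 2 / 2) / 3) - (4 * (((147 / 100) + (1 / 3200) * X) * ((107 / 200) + (9 / 12800) * Y)) - 2) * (19 / 200000) - (1 - ((147 / 100) + (1 / 3200) * X) * ((107 / 200) + (9 / 12800) * Y)) * (53 / 10000000)) := by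
  simp only [Di, Rep.val, lval]
  push_cast
  ring

def ci : List (List (List ℤ)) := [[[14118571474944], [-108380160000]], [[1982726144], [-23040000]], [[-17258496]], [[6784]], [[-1]]]

theorem ci_val (X Y Z : ℝ) : Rep.val [X, Y, Z] ci = 104857600000000 * (1 - ((147 / 100) + (1 / 3200) * X) * ((107 / 200) + (9 / 12800) * Y) - 12 * ((2 - ((147 / 100) + (1 / 3200) * X)) ^ 4 / 12)) := by
  simp only [ci, Rep.val, lval]
  push_cast
  ring

def Dk2 : List (List (List ℤ)) := [[[-11907736648040321122304, -915921792080677961728, -10847099173364301824], [3445517283054021771264, 36751707277281460224, 54283422412800000], [-28084479710415814656, -142011607449600000], [84803139993600000]], [[474184761908444266496, 8287391560731983872, 7911773211262976], [-15739804698632257536, -61101201884184576, 11539843200000], [66742306596716544, -30189542400000], [18027878400000]], [[-1563251056274571264, -5114585256296448, 768365500416], [12125597413146624, -12742448726016], [16520223227904]], [[841151997280256, -781259767808, -302030464],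 [3502313570304, 1339812864], [-1485858816]], [[74472226816, 115162112, 44521], [-255430656, -197496], [219024]]]

theorem Dk2_val (X Y Z : ℝ) : Rep.val [X, Y, Z] Dk2 = 41231686041600000000000000 * (2 * ((1.066 - 2.6 * (((107 / 200) + (9 / 12800) * Y) - 0.535)) + (211 / 256000) * Z) ^ 2 * ((2 - ((147 / 100) + (1 / 3200) * X)) ^ 4 / 12) - (1 - ((147 / 100) + (1 / 3200) * X) * ((107 / 200) + (9 / 12800) * Y)) * ((((107 / 200) + (9 / 12800) * Y) + ((1.066 - 2.6 * (((107 / 200) + (9 / 12800) * Y) - 0.535)) + (211 / 256000) * Z) - ((147 / 100) + (1 / 3200) * X)) ^ 2 * (1 + 2 / 2) + (1 - ((107 / 200) + (9 / 12800) * Y) ^ 2 - ((1.066 - 2.6 * (((107 / 200) + (9 / 12800) * Y) - 0.535)) + (211 / 256000) * Z) ^ 2 / 2) / 3 * (1 / 2 + 1 / (2 * 2))) - (3 * (((147 / 100) + (1 / 3200) * X) * ((107 / 200) + (9 / 12800) * Y)) - 1) * (19 / 200000) - (1 - ((147 / 100) + (1 / 3200) * X) * ((107 / 200) + (9 / 12800) * Y)) * (53 / 10000000)) := by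
  simp only [Dk2, Rep.val, lval]
  push_cast
  ring

def ck2 : List (List (List ℤ)) := [[[8520486354944], [-81285120000]], [[6365446144], [-17280000]], [[-17258496]], [[6784]], [[-1]]]

theorem ck2_val (X Y Z : ℝ) : Rep.val [X, Y, Z] ck2 = 52428800000000 * ((1 - ((147 / 100) + (1 / 3200) * X) * ((107 / 200) + (9 / 12800) * Y)) * (1 + 1 / 2) - 24 * ((2 - ((147 / 100) + (1 / 3200) * X)) ^ 4 / 12)) := by
  simp only [ck2, Rep.val, lval]
  push_cast
  ring

def alts : List (List (List (List (List ℤ)))) := [[Di, ci], [Dk2, ck2]]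

theorem run_ok : run alts 44 0x4404552502455020455045512045455121441020212 [[(0, 256), (0, 64), (0, 256)]] = true := by decide +kernel

theorem main {t p q r : ℝ} (hp0 : (107 / 200) ≤ p) (hp1 : p ≤ (29 / 50)) (ht0 : (147 / 100) ≤ t) (ht1 : t ≤ (31 / 20))
    (hr : 0 < r) (hrq : r ≤ q) (hqp : q ≤ p) (hsq : p ^ 2 + q ^ 2 + r ^ 2 ≤ 1) (htp : t * p < 1)
    (hS : 1.066 - 2.6 * (p - 0.535) ≤ q + r) : Beats t p q r (T4 t) := by
  have hv0 : 0 ≤ vv p q r := by unfold vv; linarith
  have hv1 : vv p q r ≤ (711 / 10000) := by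
    unfold vv
    nlinarith [sq_nonneg (q - r), mul_nonneg (sub_nonneg.mpr hp0) (sub_nonneg.mpr hp1), mul_self_le_mul_self (by linarith : (0:ℝ) ≤ 1.066 - 2.6 * (p - 0.535)) hS]
  have h1 : Kb (vv p q r) (t + p - q - r) ≤ (19 / 200000) :=
    Kb_le hv0 hv1 (s0 := (89 / 100)) (by norm_num) (by linarith) (by norm_num)
  have h2 : Kb (vv p q r) (t - p + q + r) ≤ (53 / 10000000) :=
    Kb_le hv0 hv1 (s0 := (1839 / 1000)) (by norm_num) (by linarith) (by norm_num)
  have htp0 : 0 ≤ 4 * (t * p) - 2 := by nlinarith
  have htp1 : 0 ≤ 3 * (t * p) - 1 := by nlinarith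
  have hA : 0 ≤ 1 - t * p := by linarith
  obtain ⟨X, hX⟩ : ∃ X, t = (147 / 100) + (1 / 3200) * X := ⟨(t - (147 / 100)) / (1 / 3200), by ring⟩
  obtain ⟨Y, hY⟩ : ∃ Y, p = (107 / 200) + (9 / 12800) * Y := ⟨(p - (107 / 200)) / (9 / 12800), by ring⟩
  obtain ⟨Z, hZ⟩ : ∃ Z, q + r = (1.066 - 2.6 * (p - 0.535)) + (211 / 256000) * Z := ⟨(q + r - (1.066 - 2.6 * (p - 0.535))) / (211 / 256000), by ring⟩
  have hbox : InBox [(0, 256), (0, 64), (0, 256)] [X, Y, Z] := by
    unfold InBox
    refine List.Forall₂.cons ⟨?_, ?_⟩ (List.Forall₂.cons ⟨?_, ?_⟩ (List.Forall₂.cons ⟨?_, ?_⟩ List.Forall₂.nil)) <;> push_cast <;> linarith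
  obtain ⟨ps, hps, hpos⟩ := run_sound _ _ _ _ run_ok _ (by simp) _ hbox
  rw [hY] at hZ
  simp only [alts, List.mem_cons, List.not_mem_nil, or_false] at hps
  rcases hps with rfl | rfl
  · have e0 := hpos Di (by simp)
    rw [Di_val] at e0
    have f0 := pos_of_mul_pos_right' e0
    have e1 := hpos ci (by simp)
    rw [ci_val] at e1
    have f1 := pos_of_mul_pos_right' e1
    rw [← hZ, ← hX, ← hY] at f0
    rw [← hX, ← hY] at f1
    exact beats_i (by unfold T4; linarith) (by unfold T4; positivity) htp0 h1 h2 (by unfold T4; exact f0)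
  · have e0 := hpos Dk2 (by simp)
    rw [Dk2_val] at e0
    have f0 := pos_of_mul_pos_right' e0
    have e1 := hpos ck2 (by simp)
    rw [ck2_val] at e1
    have f1 := pos_of_mul_pos_right' e1
    rw [← hZ, ← hX, ← hY] at f0
    rw [← hX, ← hY] at f1
    exact beats_ii 2 (by norm_num) hA (by unfold T4; linarith) hv0 htp1 h1 h2 (by unfold T4; exact f0)

end A2

namespace A3

def out : List (List (List ℤ)) := [[[-1024, 73], [-276]]]

theorem out_val (X Y Z : ℝ) : Rep.val [X, Y, Z] out = 256000 * (((1.066 - 2.6 * (((107 / 200) + (3 / 12800) * Y) - 0.535)) + (73 / 256000) * Z) - 2 * ((107 / 200) + (3 / 12800) * Y)) := by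
  simp only [out, Rep.val, lval]
  push_cast
  ring

def Dk2 : List (List (List ℤ)) := [[[9927943337803776000000000000, 115934022598656000000000000, -410343572736000000000000], [36058838335488000000000000, 914317277184000000000000, 892074600000000000000], [-431413530624000000000000, -2248516800000000000000], [1293667200000000000000]], [[-70018701843234816000000000, 865808225009664000000000, 447392486016000000000], [-1337979653849088000000000, -3520765154304000000000, 208630350000000000], [3772176390144000000000, -525862800000000000], [302551200000000000]], [[-466735368549433344000000, -1030971262009344000000, 34849613664000000], [2578179203923968000000, -714744182016000000], [903211070976000000]], [[559368761920978944000, -139928607277056000, -18715533264000], [658655955320832000, 79989676416000], [-85468421376000]], [[52672791054647296, 28180066743296, 3769100449], [-60220416602112, -16109032056], [17212390416]]]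

theorem Dk2_val (X Y Z : ℝ) : Rep.val [X, Y, Z] Dk2 = 16106127360000000000000000000000 * (2 * ((1.066 - 2.6 * (((107 / 200) + (3 / 12800) * Y) - 0.535)) + (73 / 256000) * Z) ^ 2 * ((2 - ((31 / 20) + (29 / 80000) * X)) ^ 4 / 12) - (1 - ((31 / 20) + (29 / 80000) * X) * ((107 / 200) + (3 / 12800) * Y)) * ((((107 / 200) + (3 / 12800) * Y) + ((1.066 - 2.6 * (((107 / 200) + (3 / 12800) * Y) - 0.535)) + (73 / 256000) * Z) - ((31 / 20) + (29 / 80000) * X)) ^ 2 * (1 + 2 / 2) + (1 - ((107 / 200) + (3 / 12800) * Y) ^ 2 - ((1.066 - 2.6 * (((107 / 200) + (3 / 12800) * Y) - 0.535)) + (73 / 256000) * Z) ^ 2 / 2) / 3 * (1 / 2 + 1 / (2 * 2))) - (3 * (((31 / 20) + (29 / 80000) * X) * ((107 / 200) + (3 / 12800) * Y)) - 1) * (31 / 1000000) - (1 - ((31 / 20) + (29 / 80000) * X) * ((107 / 200) + (3 / 12800) * Y)) * (1 / 500000)) := by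
  simp only [Dk2, Rep.val, lval]
  push_cast
  ring

def ck2 : List (List (List ℤ)) := [[[3565824000000000000], [-11160000000000000]], [[-545664000000000], [-2610000000000]], [[-6539616000000]], [[3512016000]], [[-707281]]]

theorem ck2_val (X Y Z : ℝ) : Rep.val [X, Y, Z] ck2 = 20480000000000000000 * ((1 - ((31 / 20) + (29 / 80000) * X) * ((107 / 200) + (3 / 12800) * Y)) * (1 + 1 / 2) - 24 * ((2 - ((31 / 20) + (29 / 80000) * X)) ^ 4 / 12)) := by
  simp only [ck2, Rep.val, lval]
  push_cast
  ring

def Dk4 : List (List (List ℤ)) := [[[19458603106697216000000000000, 1111984439296000000000000, -638625995776000000000000], [166673184718848000000000000, 1766680694784000000000000, 1377759660000000000000], [-1166750244864000000000000, -3542228640000000000000], [2175128640000000000000]], [[20842127424487424000000000, 1564778200367104000000000, 706675194176000000000], [-2478135974166528000000000, -5363916808704000000000, 322217985000000000], [5758419631104000000000, -828424440000000000], [508699440000000000]], [[-943612935844921344000000,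 -1676735251513344000000, 34849613664000000], [4145671873363968000000, -997643126016000000], [1275242558976000000]], [[969826968948178944000, -139928607277056000, -18715533264000], [838471174520832000, 79989676416000], [-85468421376000]], [[52672791054647296, 28180066743296, 3769100449], [-60220416602112, -16109032056], [17212390416]]]

theorem Dk4_val (X Y Z : ℝ) : Rep.val [X, Y, Z] Dk4 = 16106127360000000000000000000000 * (2 * ((1.066 - 2.6 * (((107 / 200) + (3 / 12800) * Y) - 0.535)) + (73 / 256000) * Z) ^ 2 * ((2 - ((31 / 20) + (29 / 80000) * X)) ^ 4 / 12) - (1 - ((31 / 20) + (29 / 80000) * X) * ((107 / 200) + (3 / 12800) * Y)) * ((((107 / 200) + (3 / 12800) * Y) + ((1.066 - 2.6 * (((107 / 200) + (3 / 12800) * Y) - 0.535)) + (73 / 256000) * Z) - ((31 / 20) + (29 / 80000) * X)) ^ 2 * (1 + 4 / 2) + (1 - ((107 / 200) + (3 / 12800) * Y) ^ 2 - ((1.066 - 2.6 * (((107 / 200) + (3 / 12800) * Y) - 0.535)) + (73 / 256000) * Z) ^ 2 / 2) / 3 * (1 / 2 + 1 / (2 * 4))) - (3 * (((31 / 20) + (29 / 80000) * X) * ((107 / 200) +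 (3 / 12800) * Y)) - 1) * (31 / 1000000) - (1 - ((31 / 20) + (29 / 80000) * X) * ((107 / 200) + (3 / 12800) * Y)) * (1 / 500000)) := by
  simp only [Dk4, Rep.val, lval]
  push_cast
  ring

def ck4 : List (List (List ℤ)) := [[[2691584000000000000], [-9300000000000000]], [[447296000000000], [-2175000000000]], [[-6539616000000]], [[3512016000]], [[-707281]]]

theorem ck4_val (X Y Z : ℝ) : Rep.val [X, Y, Z] ck4 = 20480000000000000000 * ((1 - ((31 / 20) + (29 / 80000) * X) * ((107 / 200) + (3 / 12800) * Y)) * (1 + 1 / 4) - 24 * ((2 - ((31 / 20) + (29 / 80000) * X)) ^ 4 / 12)) := by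
  simp only [ck4, Rep.val, lval]
  push_cast
  ring

def Dk8 : List (List (List ℤ)) := [[[13494334947065856000000000000, -176283816689664000000000000, -1088202604416000000000000], [412596451934208000000000000, 3330378537984000000000000, 2334261870000000000000], [-2450226530304000000000000, -6066107280000000000000], [3850066080000000000000]], [[230987797169700864000000000, 2903374667218944000000000, 1217303384736000000000], [-4668138783571968000000000, -9042294069504000000000, 545916082500000000], [9718043364864000000000, -1418686380000000000], [900418680000000000]], [[-1897368070435897344000000, -2968263230521344000000, 34849613664000000], [7280657212243968000000, -1563441014016000000], [2019305534976000000]], [[1790743383002578944000, -139928607277056000, -18715533264000], [1198101612920832000, 79989676416000], [-85468421376000]], [[52672791054647296, 28180066743296, 3769100449], [-60220416602112, -16109032056], [17212390416]]]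

theorem Dk8_val (X Y Z : ℝ) : Rep.val [X, Y, Z] Dk8 = 16106127360000000000000000000000 * (2 * ((1.066 - 2.6 * (((107 / 200) + (3 / 12800) * Y) - 0.535)) + (73 / 256000) * Z) ^ 2 * ((2 - ((31 / 20) + (29 / 80000) * X)) ^ 4 / 12) - (1 - ((31 / 20) + (29 / 80000) * X) * ((107 / 200) + (3 / 12800) * Y)) * ((((107 / 200) + (3 / 12800) * Y) + ((1.066 - 2.6 * (((107 / 200) + (3 / 12800) * Y) - 0.535)) + (73 / 256000) * Z) - ((31 / 20) + (29 / 80000) * X)) ^ 2 * (1 + 8 / 2) + (1 - ((107 / 200) + (3 / 12800) * Y) ^ 2 - ((1.066 - 2.6 * (((107 / 200) + (3 / 12800) * Y) - 0.535)) + (73 / 256000) * Z) ^ 2 / 2) / 3 * (1 / 2 + 1 / (2 * 8))) - (3 * (((31 / 20) + (29 / 80000) * X) * ((107 / 200) + (3 / 12800) * Y)) - 1) * (31 / 1000000) - (1 - ((31 / 20) + (29 / 80000) * X) * ((107 / 200) + (3 / 12800) * Y)) * (1 / 500000)) := by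
  simp only [Dk8, Rep.val, lval]
  push_cast
  ring

def ck8 : List (List (List ℤ)) := [[[2254464000000000000], [-8370000000000000]], [[943776000000000], [-1957500000000]], [[-6539616000000]], [[3512016000]], [[-707281]]]

theorem ck8_val (X Y Z : ℝ) : Rep.val [X, Y, Z] ck8 = 20480000000000000000 * ((1 - ((31 / 20) + (29 / 80000) * X) * ((107 / 200) + (3 / 12800) * Y)) * (1 + 1 / 8) - 24 * ((2 - ((31 / 20) + (29 / 80000) * X)) ^ 4 / 12)) := by
  simp only [ck8, Rep.val, lval]
  push_cast
  ring

def Dz : List (List (List ℤ)) := [[[57601524326465536000000000000, 206249365078016000000000000, 27585973504000000000000], [-184355386294272000000000000, -414332246016000000000000, -39647760000000000000], [540067516416000000000000, 169453440000000000000], [-234627840000000000000]], [[-327537723604729856000000000, -373882435403776000000000, -50006994944000000000], [701506770173952000000000, 144402026496000000000, -9272460000000000], [-166009430016000000000, 39630240000000000], [-54872640000000000]], [[487019766041542656000000,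 260556716998656000000, 34849613664000000], [-556806134956032000000, -148946294016000000], [159148094976000000]], [[-261547652133421056000, -139928607277056000, -18715533264000], [299025516920832000, 79989676416000], [-85468421376000]], [[52672791054647296, 28180066743296, 3769100449], [-60220416602112, -16109032056], [17212390416]]]

theorem Dz_val (X Y Z : ℝ) : Rep.val [X, Y, Z] Dz = 16106127360000000000000000000000 * (2 * ((1.066 - 2.6 * (((107 / 200) + (3 / 12800) * Y) - 0.535)) + (73 / 256000) * Z) ^ 2 * ((2 - ((31 / 20) + (29 / 80000) * X)) ^ 4 / 12) - (1 - ((31 / 20) + (29 / 80000) * X) * ((107 / 200) + (3 / 12800) * Y)) * ((1 - ((107 / 200) + (3 / 12800) * Y) ^ 2 - ((1.066 - 2.6 * (((107 / 200) + (3 / 12800) * Y) - 0.535)) + (73 / 256000) * Z) ^ 2 / 2) / 6) - (3 * (((31 / 20) + (29 / 80000) * X) * ((107 / 200) + (3 / 12800) * Y)) - 1) * (31 / 1000000) - (1 - ((31 / 20) + (29 / 80000) * X) * ((107 / 200) + (3 / 12800) * Y)) * (1 / 500000)) := by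
  simp only [Dz, Rep.val, lval]
  push_cast
  ring

def cz : List (List (List ℤ)) := [[[-65280, -365], [480]], [[464]]]

theorem cz_val (X Y Z : ℝ) : Rep.val [X, Y, Z] cz = 1280000 * (((31 / 20) + (29 / 80000) * X) - ((107 / 200) + (3 / 12800) * Y) - ((1.066 - 2.6 * (((107 / 200) + (3 / 12800) * Y) - 0.535)) + (73 / 256000) * Z)) := by
  simp only [cz, Rep.val, lval]
  push_cast
  ring

def cz2 : List (List (List ℤ)) := [[[1817344000000000000], [-7440000000000000]], [[1440256000000000], [-1740000000000]], [[-6539616000000]], [[3512016000]], [[-707281]]]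

theorem cz2_val (X Y Z : ℝ) : Rep.val [X, Y, Z] cz2 = 20480000000000000000 * (1 - ((31 / 20) + (29 / 80000) * X) * ((107 / 200) + (3 / 12800) * Y) - 24 * ((2 - ((31 / 20) + (29 / 80000) * X)) ^ 4 / 12)) := by
  simp only [cz2, Rep.val, lval]
  push_cast
  ring

def alts : List (List (List (List (List ℤ)))) := [[out], [Dk2, ck2], [Dk4, ck4], [Dk8, ck8], [Dz, cz, cz2]]

theorem run_ok : run alts 82 0x566160287418216826721088828028881802188102267868702026788710270212055726025650200 [[(0, 256), (0, 64), (0, 256)]] = true := by decide +kernel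

theorem main {t p q r : ℝ} (hp0 : (107 / 200) ≤ p) (hp1 : p ≤ (11 / 20)) (ht0 : (31 / 20) ≤ t) (ht1 : t ≤ (4107 / 2500))
    (hr : 0 < r) (hrq : r ≤ q) (hqp : q ≤ p) (hsq : p ^ 2 + q ^ 2 + r ^ 2 ≤ 1) (htp : t * p < 1)
    (hS : 1.066 - 2.6 * (p - 0.535) ≤ q + r) : Beats t p q r (T4 t) := by
  have hv0 : 0 ≤ vv p q r := by unfold vv; linarith
  have hv1 : vv p q r ≤ (709 / 12500) := by
    unfold vv
    nlinarith [sq_nonneg (q - r), mul_nonneg (sub_nonneg.mpr hp0) (sub_nonneg.mpr hp1), mul_self_le_mul_self (by linarith : (0:ℝ) ≤ 1.066 - 2.6 * (p - 0.535)) hS]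
  have h1 : Kb (vv p q r) (t + p - q - r) ≤ (31 / 1000000) :=
    Kb_le hv0 hv1 (s0 := 1) (by norm_num) (by linarith) (by norm_num)
  have h2 : Kb (vv p q r) (t - p + q + r) ≤ (1 / 500000) :=
    Kb_le hv0 hv1 (s0 := (2027 / 1000)) (by norm_num) (by linarith) (by norm_num)
  have htp0 : 0 ≤ 4 * (t * p) - 2 := by nlinarith
  have htp1 : 0 ≤ 3 * (t * p) - 1 := by nlinarith
  have hA : 0 ≤ 1 - t * p := by linarith
  obtain ⟨X, hX⟩ : ∃ X, t = (31 / 20) + (29 / 80000) * X := ⟨(t - (31 / 20)) / (29 / 80000), by ring⟩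
  obtain ⟨Y, hY⟩ : ∃ Y, p = (107 / 200) + (3 / 12800) * Y := ⟨(p - (107 / 200)) / (3 / 12800), by ring⟩
  obtain ⟨Z, hZ⟩ : ∃ Z, q + r = (1.066 - 2.6 * (p - 0.535)) + (73 / 256000) * Z := ⟨(q + r - (1.066 - 2.6 * (p - 0.535))) / (73 / 256000), by ring⟩
  have hbox : InBox [(0, 256), (0, 64), (0, 256)] [X, Y, Z] := by
    unfold InBox
    refine List.Forall₂.cons ⟨?_, ?_⟩ (List.Forall₂.cons ⟨?_, ?_⟩ (List.Forall₂.cons ⟨?_, ?_⟩ List.Forall₂.nil)) <;> push_cast <;> linarith
  obtain ⟨ps, hps, hpos⟩ := run_sound _ _ _ _ run_ok _ (by simp) _ hbox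
  rw [hY] at hZ
  simp only [alts, List.mem_cons, List.not_mem_nil, or_false] at hps
  rcases hps with rfl | rfl | rfl | rfl | rfl
  · have e0 := hpos out (by simp)
    rw [out_val] at e0
    have f0 := pos_of_mul_pos_right' e0
    exfalso; rw [← hY] at f0; rw [← hY] at hZ; linarith
  · have e0 := hpos Dk2 (by simp)
    rw [Dk2_val] at e0
    have f0 := pos_of_mul_pos_right' e0
    have e1 := hpos ck2 (by simp)
    rw [ck2_val] at e1
    have f1 := pos_of_mul_pos_right' e1
    rw [← hZ, ← hX, ← hY] at f0
    rw [← hX, ← hY] at f1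
    exact beats_ii 2 (by norm_num) hA (by unfold T4; linarith) hv0 htp1 h1 h2 (by unfold T4; exact f0)
  · have e0 := hpos Dk4 (by simp)
    rw [Dk4_val] at e0
    have f0 := pos_of_mul_pos_right' e0
    have e1 := hpos ck4 (by simp)
    rw [ck4_val] at e1
    have f1 := pos_of_mul_pos_right' e1
    rw [← hZ, ← hX, ← hY] at f0
    rw [← hX, ← hY] at f1
    exact beats_ii 4 (by norm_num) hA (by unfold T4; linarith) hv0 htp1 h1 h2 (by unfold T4; exact f0)
  · have e0 := hpos Dk8 (by simp)
    rw [Dk8_val] at e0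
    have f0 := pos_of_mul_pos_right' e0
    have e1 := hpos ck8 (by simp)
    rw [ck8_val] at e1
    have f1 := pos_of_mul_pos_right' e1
    rw [← hZ, ← hX, ← hY] at f0
    rw [← hX, ← hY] at f1
    exact beats_ii 8 (by norm_num) hA (by unfold T4; linarith) hv0 htp1 h1 h2 (by unfold T4; exact f0)
  · have e0 := hpos Dz (by simp)
    rw [Dz_val] at e0
    have f0 := pos_of_mul_pos_right' e0
    have e1 := hpos cz (by simp)
    rw [cz_val] at e1
    have f1 := pos_of_mul_pos_right' e1
    have e2 := hpos cz2 (by simp)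
    rw [cz2_val] at e2
    have f2 := pos_of_mul_pos_right' e2
    rw [← hZ, ← hX, ← hY] at f0
    rw [← hZ, ← hX, ← hY] at f1
    rw [← hX, ← hY] at f2
    exact beats_iii (by unfold T4; linarith) (by unfold T4; positivity) htp1 (by linarith) h1 h2 (by unfold T4; exact f0)

end A3

namespace A4

def Di : List (List (List ℤ)) := [[[-21892143404548096000000000000, 750924990644224000000000000, -1270112184064000000000000], [-93095401095168000000000000, -860521549824000000000000, 6624724800000000000000], [1986410594304000000000000, -10549324800000000000000], [2828390400000000000000]], [[-143989855511117824000000000, 55995298349056000000000, 1576929545984000000000], [181330051596288000000000, -9825338413056000000000, 1549330800000000000], [7172933861376000000000, -2467180800000000000], [661478400000000000]], [[77001848524898304000000, -1193292775243776000000, 291150243936000000], [2157355042209792000000, -2496420417024000000], [2124718331904000000]], [[179206283351556096000, -389654185549824000, -156358464336000], [935801556369408000,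 462406074624000], [-341873685504000]], [[48889186343256064, 78472023478784, 31488857401], [-116034461257728, -93123445584], [68849561664]]]

theorem Di_val (X Y Z : ℝ) : Rep.val [X, Y, Z] Di = 16106127360000000000000000000000 * (2 * ((1.066 - 2.6 * (((11 / 20) + (3 / 6400) * Y) - 0.535)) + (211 / 256000) * Z) ^ 2 * ((2 - ((31 / 20) + (29 / 80000) * X)) ^ 4 / 12) - (1 - ((31 / 20) + (29 / 80000) * X) * ((11 / 20) + (3 / 6400) * Y)) * ((((11 / 20) + (3 / 6400) * Y) + ((1.066 - 2.6 * (((11 / 20) + (3 / 6400) * Y) - 0.535)) + (211 / 256000) * Z) - ((31 / 20) + (29 / 80000) * X)) ^ 2 + (1 - ((11 / 20) + (3 / 6400) * Y) ^ 2 - ((1.066 - 2.6 * (((11 / 20) + (3 / 6400) * Y) - 0.535)) + (211 / 256000) * Z) ^ 2 / 2) / 3) - (4 * (((31 / 20) + (29 / 80000) * X) * ((11 / 20) + (3 / 6400) * Y)) - 2) * (67 / 1000000) - (1 - ((31 / 20) + (29 / 80000) * X) * ((11 / 20) + (3 / 6400) * Y)) * (9 / 2000000)) := by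
  simp only [Di, Rep.val, lval]
  push_cast
  ring

def ci : List (List (List ℤ)) := [[[4361984000000000000], [-29760000000000000]], [[-2754304000000000], [-6960000000000]], [[-6539616000000]], [[3512016000]], [[-707281]]]

theorem ci_val (X Y Z : ℝ) : Rep.val [X, Y, Z] ci = 40960000000000000000 * (1 - ((31 / 20) + (29 / 80000) * X) * ((11 / 20) + (3 / 6400) * Y) - 12 * ((2 - ((31 / 20) + (29 / 80000) * X)) ^ 4 / 12)) := by
  simp only [ci, Rep.val, lval]
  push_cast
  ring

def Dk2 : List (List (List ℤ)) := [[[9898756568776704000000000000, 477612673204224000000000000, -2951225144064000000000000], [-7765594472448000000000000, 3621726130176000000000000, 14905630800000000000000], [-732117712896000000000000, -25996550400000000000000], [10349337600000000000000]], [[-140458030503297024000000000, 1845022503469056000000000, 3849281385984000000000], [-1703135384174592000000000, -20742026029056000000000, 3485994300000000000], [15321064882176000000000, -6079838400000000000], [2420409600000000000]], [[-298032346951581696000000,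 -3112148516683776000000, 291150243936000000], [5387580442017792000000, -4131808833024000000], [3612844283904000000]], [[601172664407556096000, -389654185549824000, -156358464336000], [1295431994769408000, 462406074624000], [-341873685504000]], [[48889186343256064, 78472023478784, 31488857401], [-116034461257728, -93123445584], [68849561664]]]

theorem Dk2_val (X Y Z : ℝ) : Rep.val [X, Y, Z] Dk2 = 16106127360000000000000000000000 * (2 * ((1.066 - 2.6 * (((11 / 20) + (3 / 6400) * Y) - 0.535)) + (211 / 256000) * Z) ^ 2 * ((2 - ((31 / 20) + (29 / 80000) * X)) ^ 4 / 12) - (1 - ((31 / 20) + (29 / 80000) * X) * ((11 / 20) + (3 / 6400) * Y)) * ((((11 / 20) + (3 / 6400) * Y) + ((1.066 - 2.6 * (((11 / 20) + (3 / 6400) * Y) - 0.535)) + (211 / 256000) * Z) - ((31 / 20) + (29 / 80000) * X)) ^ 2 * (1 + 2 / 2) + (1 - ((11 / 20) + (3 / 6400) * Y) ^ 2 - ((1.066 - 2.6 * (((11 / 20) + (3 / 6400) * Y) - 0.535)) + (211 / 256000) * Z) ^ 2 / 2) / 3 * (1 / 2 + 1 / (2 * 2))) - (3 * (((31 / 20) + (29 / 80000) * X) * ((11 / 20) + (3 / 6400)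 * Y)) - 1) * (67 / 1000000) - (1 - ((31 / 20) + (29 / 80000) * X) * ((11 / 20) + (3 / 6400) * Y)) * (9 / 2000000)) := by
  simp only [Dk2, Rep.val, lval]
  push_cast
  ring

def ck2 : List (List (List ℤ)) := [[[2851584000000000000], [-22320000000000000]], [[-712704000000000], [-5220000000000]], [[-6539616000000]], [[3512016000]], [[-707281]]]

theorem ck2_val (X Y Z : ℝ) : Rep.val [X, Y, Z] ck2 = 20480000000000000000 * ((1 - ((31 / 20) + (29 / 80000) * X) * ((11 / 20) + (3 / 6400) * Y)) * (1 + 1 / 2) - 24 * ((2 - ((31 / 20) + (29 / 80000) * X)) ^ 4 / 12)) := by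
  simp only [ck2, Rep.val, lval]
  push_cast
  ring

def Dk4 : List (List (List ℤ)) := [[[25007865152405504000000000000, 288088937857024000000000000, -4598715844864000000000000], [86879695798272000000000000, 7591811383296000000000000, 23020918680000000000000], [-2996502183936000000000000, -40953985920000000000000], [17401029120000000000000]], [[-114377512896692224000000000, 3520793108217856000000000, 6076186189184000000000], [-3469903455977472000000000, -31620836545536000000000, 5383924530000000000], [23424359694336000000000, -9577948320000000000], [4069595520000000000]], [[-673066542428061696000000, -5031004258123776000000, 291150243936000000], [8617805841825792000000, -5767197249024000000], [5100970235904000000]], [[1023139045463556096000, -389654185549824000, -156358464336000], [1655062433169408000, 462406074624000], [-341873685504000]], [[48889186343256064, 78472023478784, 31488857401], [-116034461257728, -93123445584], [68849561664]]]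

theorem Dk4_val (X Y Z : ℝ) : Rep.val [X, Y, Z] Dk4 = 16106127360000000000000000000000 * (2 * ((1.066 - 2.6 * (((11 / 20) + (3 / 6400) * Y) - 0.535)) + (211 / 256000) * Z) ^ 2 * ((2 - ((31 / 20) + (29 / 80000) * X)) ^ 4 / 12) - (1 - ((31 / 20) + (29 / 80000) * X) * ((11 / 20) + (3 / 6400) * Y)) * ((((11 / 20) + (3 / 6400) * Y) + ((1.066 - 2.6 * (((11 / 20) + (3 / 6400) * Y) - 0.535)) + (211 / 256000) * Z) - ((31 / 20) + (29 / 80000) * X)) ^ 2 * (1 + 4 / 2) + (1 - ((11 / 20) + (3 / 6400) * Y) ^ 2 - ((1.066 - 2.6 * (((11 / 20) + (3 / 6400) * Y) - 0.535)) + (211 / 256000) * Z) ^ 2 / 2) / 3 * (1 / 2 + 1 / (2 * 4))) - (3 * (((31 / 20) + (29 / 80000) * X) * ((11 / 20) + (3 / 6400) * Y)) - 1) * (67 / 1000000) - (1 - ((31 / 20) + (29 / 80000) * X) * ((11 / 20) + (3 / 6400) * Y)) * (9 / 2000000)) := by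
  simp only [Dk4, Rep.val, lval]
  push_cast
  ring

def ck4 : List (List (List ℤ)) := [[[2096384000000000000], [-18600000000000000]], [[308096000000000], [-4350000000000]], [[-6539616000000]], [[3512016000]], [[-707281]]]

theorem ck4_val (X Y Z : ℝ) : Rep.val [X, Y, Z] ck4 = 20480000000000000000 * ((1 - ((31 / 20) + (29 / 80000) * X) * ((11 / 20) + (3 / 6400) * Y)) * (1 + 1 / 4) - 24 * ((2 - ((31 / 20) + (29 / 80000) * X)) ^ 4 / 12)) := by
  simp only [ck4, Rep.val, lval]
  push_cast
  ring

def Dk8 : List (List (List ℤ)) := [[[29964642029666304000000000000, 34724340301824000000000000, -7843263857664000000000000], [291319563681792000000000000, 14763738249216000000000000, 39003067260000000000000], [-6844055371776000000000000, -70134171840000000000000], [30800528640000000000000]], [[-28070717291495424000000000, 6702449417158656000000000, 10461825240384000000000], [-6826618506903552000000000, -53321641929216000000000, 9121685085000000000], [39563695005696000000000, -16402346640000000000], [7203349440000000000]], [[-1423134933381021696000000,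 -8868715741003776000000, 291150243936000000], [15078256641441792000000, -9037974081024000000], [8077222139904000000]], [[1867071807575556096000, -389654185549824000, -156358464336000], [2374323309969408000, 462406074624000], [-341873685504000]], [[48889186343256064, 78472023478784, 31488857401], [-116034461257728, -93123445584], [68849561664]]]

theorem Dk8_val (X Y Z : ℝ) : Rep.val [X, Y, Z] Dk8 = 16106127360000000000000000000000 * (2 * ((1.066 - 2.6 * (((11 / 20) + (3 / 6400) * Y) - 0.535)) + (211 / 256000) * Z) ^ 2 * ((2 - ((31 / 20) + (29 / 80000) * X)) ^ 4 / 12) - (1 - ((31 / 20) + (29 / 80000) * X) * ((11 / 20) + (3 / 6400) * Y)) * ((((11 / 20) + (3 / 6400) * Y) + ((1.066 - 2.6 * (((11 / 20) + (3 / 6400) * Y) - 0.535)) + (211 / 256000) * Z) - ((31 / 20) + (29 / 80000) * X)) ^ 2 * (1 + 8 / 2) + (1 - ((11 / 20) + (3 / 6400) * Y) ^ 2 - ((1.066 - 2.6 * (((11 / 20) + (3 / 6400) * Y) - 0.535)) + (211 / 256000) * Z) ^ 2 / 2) / 3 * (1 / 2 + 1 / (2 * 8))) - (3 * (((31 / 20) + (29 / 80000) * X) * ((11 / 20) + (3 / 6400)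 * Y)) - 1) * (67 / 1000000) - (1 - ((31 / 20) + (29 / 80000) * X) * ((11 / 20) + (3 / 6400) * Y)) * (9 / 2000000)) := by
  simp only [Dk8, Rep.val, lval]
  push_cast
  ring

def ck8 : List (List (List ℤ)) := [[[1718784000000000000], [-16740000000000000]], [[818496000000000], [-3915000000000]], [[-6539616000000]], [[3512016000]], [[-707281]]]

theorem ck8_val (X Y Z : ℝ) : Rep.val [X, Y, Z] ck8 = 20480000000000000000 * ((1 - ((31 / 20) + (29 / 80000) * X) * ((11 / 20) + (3 / 6400) * Y)) * (1 + 1 / 8) - 24 * ((2 - ((31 / 20) + (29 / 80000) * X)) ^ 4 / 12)) := by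
  simp only [ck8, Rep.val, lval]
  push_cast
  ring

def Dz : List (List (List ℤ)) := [[[47044380174843904000000000000, 521505815527424000000000000, 209267220736000000000000], [-237454274592768000000000000, -2269794668544000000000000, -662472480000000000000], [1980075884544000000000000, 1959160320000000000000], [-1877022720000000000000]], [[-283674426761805824000000000, -1053492304543744000000000, -422740073216000000000], [1358877845618688000000000, 864086605824000000000, -154933080000000000], [-706179907584000000000, 458190720000000000], [-438981120000000000]], [[452036044001378304000000, 725562966196224000000, 291150243936000000], [-1072870357598208000000, -861032001024000000], [636592379904000000]], [[-242760097704443904000, -389654185549824000, -156358464336000], [576171117969408000, 462406074624000], [-341873685504000]], [[48889186343256064, 78472023478784, 31488857401], [-116034461257728, -93123445584], [68849561664]]]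

theorem Dz_val (X Y Z : ℝ) : Rep.val [X, Y, Z] Dz = 16106127360000000000000000000000 * (2 * ((1.066 - 2.6 * (((11 / 20) + (3 / 6400) * Y) - 0.535)) + (211 / 256000) * Z) ^ 2 * ((2 - ((31 / 20) + (29 / 80000) * X)) ^ 4 / 12) - (1 - ((31 / 20) + (29 / 80000) * X) * ((11 / 20) + (3 / 6400) * Y)) * ((1 - ((11 / 20) + (3 / 6400) * Y) ^ 2 - ((1.066 - 2.6 * (((11 / 20) + (3 / 6400) * Y) - 0.535)) + (211 / 256000) * Z) ^ 2 / 2) / 6) - (3 * (((31 / 20) + (29 / 80000) * X) * ((11 / 20) + (3 / 6400) * Y)) - 1) * (67 / 1000000) - (1 - ((31 / 20) + (29 / 80000) * X) * ((11 / 20) + (3 / 6400) * Y)) * (9 / 2000000)) := by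
  simp only [Dz, Rep.val, lval]
  push_cast
  ring

def cz : List (List (List ℤ)) := [[[-34560, -1055], [960]], [[464]]]

theorem cz_val (X Y Z : ℝ) : Rep.val [X, Y, Z] cz = 1280000 * (((31 / 20) + (29 / 80000) * X) - ((11 / 20) + (3 / 6400) * Y) - ((1.066 - 2.6 * (((11 / 20) + (3 / 6400) * Y) - 0.535)) + (211 / 256000) * Z)) := by
  simp only [cz, Rep.val, lval]
  push_cast
  ring

def cz2 : List (List (List ℤ)) := [[[1341184000000000000], [-14880000000000000]], [[1328896000000000], [-3480000000000]], [[-6539616000000]], [[3512016000]], [[-707281]]]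

theorem cz2_val (X Y Z : ℝ) : Rep.val [X, Y, Z] cz2 = 20480000000000000000 * (1 - ((31 / 20) + (29 / 80000) * X) * ((11 / 20) + (3 / 6400) * Y) - 24 * ((2 - ((31 / 20) + (29 / 80000) * X)) ^ 4 / 12)) := by
  simp only [cz2, Rep.val, lval]
  push_cast
  ring

def alts : List (List (List (List (List ℤ)))) := [[Di, ci], [Dk2, ck2], [Dk4, ck4], [Dk8, ck8], [Dz, cz, cz2]]

theorem run_ok : run alts 98 0x4441240650506615015515008825828208608288828028820266160886082120156608226600668672126620256201022 [[(0, 256), (0, 64), (0, 256)]] = true := by decide +kernel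

theorem main {t p q r : ℝ} (hp0 : (11 / 20) ≤ p) (hp1 : p ≤ (29 / 50)) (ht0 : (31 / 20) ≤ t) (ht1 : t ≤ (4107 / 2500))
    (hr : 0 < r) (hrq : r ≤ q) (hqp : q ≤ p) (hsq : p ^ 2 + q ^ 2 + r ^ 2 ≤ 1) (htp : t * p < 1)
    (hS : 1.066 - 2.6 * (p - 0.535) ≤ q + r) : Beats t p q r (T4 t) := by
  have hv0 : 0 ≤ vv p q r := by unfold vv; linarith
  have hv1 : vv p q r ≤ (711 / 10000) := by
    unfold vv
    nlinarith [sq_nonneg (q - r), mul_nonneg (sub_nonneg.mpr hp0) (sub_nonneg.mpr hp1), mul_self_le_mul_self (by linarith : (0:ℝ) ≤ 1.066 - 2.6 * (p - 0.535)) hS]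
  have h1 : Kb (vv p q r) (t + p - q - r) ≤ (67 / 1000000) :=
    Kb_le hv0 hv1 (s0 := (97 / 100)) (by norm_num) (by linarith) (by norm_num)
  have h2 : Kb (vv p q r) (t - p + q + r) ≤ (9 / 2000000) :=
    Kb_le hv0 hv1 (s0 := (1919 / 1000)) (by norm_num) (by linarith) (by norm_num)
  have htp0 : 0 ≤ 4 * (t * p) - 2 := by nlinarith
  have htp1 : 0 ≤ 3 * (t * p) - 1 := by nlinarith
  have hA : 0 ≤ 1 - t * p := by linarith
  obtain ⟨X, hX⟩ : ∃ X, t = (31 / 20) + (29 / 80000) * X := ⟨(t - (31 / 20)) / (29 / 80000), by ring⟩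
  obtain ⟨Y, hY⟩ : ∃ Y, p = (11 / 20) + (3 / 6400) * Y := ⟨(p - (11 / 20)) / (3 / 6400), by ring⟩
  obtain ⟨Z, hZ⟩ : ∃ Z, q + r = (1.066 - 2.6 * (p - 0.535)) + (211 / 256000) * Z := ⟨(q + r - (1.066 - 2.6 * (p - 0.535))) / (211 / 256000), by ring⟩
  have hbox : InBox [(0, 256), (0, 64), (0, 256)] [X, Y, Z] := by
    unfold InBox
    refine List.Forall₂.cons ⟨?_, ?_⟩ (List.Forall₂.cons ⟨?_, ?_⟩ (List.Forall₂.cons ⟨?_, ?_⟩ List.Forall₂.nil)) <;> push_cast <;> linarith
  obtain ⟨ps, hps, hpos⟩ := run_sound _ _ _ _ run_ok _ (by simp) _ hbox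
  rw [hY] at hZ
  simp only [alts, List.mem_cons, List.not_mem_nil, or_false] at hps
  rcases hps with rfl | rfl | rfl | rfl | rfl
  · have e0 := hpos Di (by simp)
    rw [Di_val] at e0
    have f0 := pos_of_mul_pos_right' e0
    have e1 := hpos ci (by simp)
    rw [ci_val] at e1
    have f1 := pos_of_mul_pos_right' e1
    rw [← hZ, ← hX, ← hY] at f0
    rw [← hX, ← hY] at f1
    exact beats_i (by unfold T4; linarith) (by unfold T4; positivity) htp0 h1 h2 (by unfold T4; exact f0)
  · have e0 := hpos Dk2 (by simp)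
    rw [Dk2_val] at e0
    have f0 := pos_of_mul_pos_right' e0
    have e1 := hpos ck2 (by simp)
    rw [ck2_val] at e1
    have f1 := pos_of_mul_pos_right' e1
    rw [← hZ, ← hX, ← hY] at f0
    rw [← hX, ← hY] at f1
    exact beats_ii 2 (by norm_num) hA (by unfold T4; linarith) hv0 htp1 h1 h2 (by unfold T4; exact f0)
  · have e0 := hpos Dk4 (by simp)
    rw [Dk4_val] at e0
    have f0 := pos_of_mul_pos_right' e0
    have e1 := hpos ck4 (by simp)
    rw [ck4_val] at e1
    have f1 := pos_of_mul_pos_right' e1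
    rw [← hZ, ← hX, ← hY] at f0
    rw [← hX, ← hY] at f1
    exact beats_ii 4 (by norm_num) hA (by unfold T4; linarith) hv0 htp1 h1 h2 (by unfold T4; exact f0)
  · have e0 := hpos Dk8 (by simp)
    rw [Dk8_val] at e0
    have f0 := pos_of_mul_pos_right' e0
    have e1 := hpos ck8 (by simp)
    rw [ck8_val] at e1
    have f1 := pos_of_mul_pos_right' e1
    rw [← hZ, ← hX, ← hY] at f0
    rw [← hX, ← hY] at f1
    exact beats_ii 8 (by norm_num) hA (by unfold T4; linarith) hv0 htp1 h1 h2 (by unfold T4; exact f0)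
  · have e0 := hpos Dz (by simp)
    rw [Dz_val] at e0
    have f0 := pos_of_mul_pos_right' e0
    have e1 := hpos cz (by simp)
    rw [cz_val] at e1
    have f1 := pos_of_mul_pos_right' e1
    have e2 := hpos cz2 (by simp)
    rw [cz2_val] at e2
    have f2 := pos_of_mul_pos_right' e2
    rw [← hZ, ← hX, ← hY] at f0
    rw [← hZ, ← hX, ← hY] at f1
    rw [← hX, ← hY] at f2
    exact beats_iii (by unfold T4; linarith) (by unfold T4; positivity) htp1 (by linarith) h1 h2 (by unfold T4; exact f0)

end A4

end Pool.Agent.Helper89.SP.Fact6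

namespace Pool.Agent.Helper89.SP

theorem fact_T3_6 {t p q r : ℝ} (hp0 : 0.535 ≤ p) (hp1 : p ≤ 0.58) (ht0 : 1.35 ≤ t) (ht1 : t ≤ 1.6428)
    (hr : 0 < r) (hrq : r ≤ q) (hqp : q ≤ p) (hpq : p + q ≤ t) (hsq : p ^ 2 + q ^ 2 + r ^ 2 ≤ 1)
    (htp : t * p < 1) (hS : S6 p ≤ q + r) : Beats t p q r (T4 t) := by
  unfold S6 at hS
  rcases le_total t 1.47 with h1 | h1
  · exact Fact6.A1.main (by linarith) (by linarith) (by linarith) (by linarith) hr hrq hqp hsq htp hS
  rcases le_total t 1.55 with h2 | h2
  · exact Fact6.A2.main (by linarith) (by linarith) (by linarith) (by linarith) hr hrq hqp hsq htp hS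
  rcases le_total p 0.55 with h3 | h3
  · exact Fact6.A3.main (by linarith) (by linarith) (by linarith) (by linarith) hr hrq hqp hsq htp hS
  · exact Fact6.A4.main (by linarith) (by linarith) (by linarith) (by linarith) hr hrq hqp hsq htp hS

end Pool.Agent.Helper89.SP
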