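import Pool.Agent.Helper89.SP.Defs

/-!
Project SP (MP_66ebcc_gt): reduction of `Beats` to the case `q = r`.
-/

set_option autoImplicit false

open Real

namespace Pool.Agent.Helper89.SP

theorem Kb_le {v v1 s s0 kb : ℝ} (hv : 0 ≤ v) (hv1 : v ≤ v1) (hs0 : 0 < s0) (hs : s0 ≤ s)
    (h : 0.1647 * v1 ^ 3 ≤ kb * s0 ^ 4) : Kb v s ≤ kb := by
  unfold Kb
  have h1 : (0 : ℝ) < s := hs0.trans_le hs
  have h2 : v ^ 3 ≤ v1 ^ 3 := pow_le_pow_left₀ hv hv1 3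
  have h3 : s0 ^ 4 ≤ s ^ 4 := pow_le_pow_left₀ hs0.le hs 4
  have h4 : (0 : ℝ) < s0 ^ 4 := by positivity
  have h5 : (0 : ℝ) ≤ v ^ 3 := pow_nonneg hv 3
  have hk : 0 ≤ kb := by
    by_contra hk
    have : kb * s0 ^ 4 < 0 := mul_neg_of_neg_of_pos (not_le.mp hk) h4
    nlinarith
  rw [div_le_iff₀ (by positivity)]
  nlinarith [mul_le_mul_of_nonneg_left h3 hk]

/-- first alternative at `q = r` -/
theorem beats_i {t p q r F kb kg : ℝ} (hAF : 12 * F ≤ 1 - t * p) (hF : 0 ≤ F)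
    (hc : 0 ≤ 4 * (t * p) - 2)
    (h1 : Kb (vv p q r) (t + p - q - r) ≤ kb) (h2 : Kb (vv p q r) (t - p + q + r) ≤ kg)
    (h : 0 < 2 * (q + r) ^ 2 * F -
      (1 - t * p) * ((p + (q + r) - t) ^ 2 + (1 - p ^ 2 - (q + r) ^ 2 / 2) / 3) -
      (4 * (t * p) - 2) * kb - (1 - t * p) * kg) : Beats t p q r F := by
  left
  unfold Gi
  rw [max_eq_left hc]
  have hA : 0 ≤ 1 - t * p := by linarith
  have e1 := mul_le_mul_of_nonneg_left h1 hc
  have e2 := mul_le_mul_of_nonneg_left h2 hA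
  have e3 : 0 ≤ (1 - t * p - 12 * F) * (q - r) ^ 2 := mul_nonneg (by linarith) (sq_nonneg _)
  have e4 : vv p q r = (1 - p ^ 2 - (q + r) ^ 2 / 2) / 3 - (q - r) ^ 2 / 6 := by unfold vv; ring
  have e5 : (1 - t * p) * ((p + q + r - t) ^ 2 + vv p q r) =
    (1 - t * p) * ((p + (q + r) - t) ^ 2 + (1 - p ^ 2 - (q + r) ^ 2 / 2) / 3) -
      (1 - t * p) * (q - r) ^ 2 / 6 := by rw [e4]; ring
  have e6 : 8 * (q * r) * F = 2 * (q + r) ^ 2 * F - 2 * F * (q - r) ^ 2 := by ring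
  rw [e5, e6]
  nlinarith

/-- first alternative at `q = r`, for `4 t p ≤ 2` -/
theorem beats_i' {t p q r F kg : ℝ} (hAF : 12 * F ≤ 1 - t * p) (hF : 0 ≤ F)
    (hc : 4 * (t * p) - 2 ≤ 0) (h2 : Kb (vv p q r) (t - p + q + r) ≤ kg)
    (h : 0 < 2 * (q + r) ^ 2 * F -
      (1 - t * p) * ((p + (q + r) - t) ^ 2 + (1 - p ^ 2 - (q + r) ^ 2 / 2) / 3) -
      (1 - t * p) * kg) : Beats t p q r F := by
  left
  unfold Gi
  rw [max_eq_right hc]
  have hA : 0 ≤ 1 - t * p := by linarith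
  have e2 := mul_le_mul_of_nonneg_left h2 hA
  have e3 : 0 ≤ (1 - t * p - 12 * F) * (q - r) ^ 2 := mul_nonneg (by linarith) (sq_nonneg _)
  have e4 : vv p q r = (1 - p ^ 2 - (q + r) ^ 2 / 2) / 3 - (q - r) ^ 2 / 6 := by unfold vv; ring
  have e5 : (1 - t * p) * ((p + q + r - t) ^ 2 + vv p q r) =
    (1 - t * p) * ((p + (q + r) - t) ^ 2 + (1 - p ^ 2 - (q + r) ^ 2 / 2) / 3) -
      (1 - t * p) * (q - r) ^ 2 / 6 := by rw [e4]; ring
  have e6 : 8 * (q * r) * F = 2 * (q + r) ^ 2 * F - 2 * F * (q - r) ^ 2 := by ring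
  rw [e5, e6]
  nlinarith

/-- second or third alternative at `q = r` -/
theorem beats_ii {t p q r F kb kg : ℝ} (k : ℝ) (hk : 0 < k) (hA : 0 ≤ 1 - t * p)
    (hAF : 24 * F ≤ (1 - t * p) * (1 + 1 / k)) (hv : 0 ≤ vv p q r)
    (hc : 0 ≤ 3 * (t * p) - 1)
    (h1 : Kb (vv p q r) (t + p - q - r) ≤ kb) (h2 : Kb (vv p q r) (t - p + q + r) ≤ kg)
    (h : 0 < 2 * (q + r) ^ 2 * F -
      (1 - t * p) * ((p + (q + r) - t) ^ 2 * (1 + k / 2) +
        (1 - p ^ 2 - (q + r) ^ 2 / 2) / 3 * (1 / 2 + 1 / (2 * k))) -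
      (3 * (t * p) - 1) * kb - (1 - t * p) * kg) : Beats t p q r F := by
  have e1 := mul_le_mul_of_nonneg_left h1 hc
  have e2 := mul_le_mul_of_nonneg_left h2 hA
  have e3 : 0 ≤ ((1 - t * p) * (1 + 1 / k) - 24 * F) * (q - r) ^ 2 :=
    mul_nonneg (by linarith) (sq_nonneg _)
  have e4 : vv p q r = (1 - p ^ 2 - (q + r) ^ 2 / 2) / 3 - (q - r) ^ 2 / 6 := by unfold vv; ring
  have e5 : (1 - t * p) * ((p + q + r - t) ^ 2 * (1 + k / 2) + vv p q r * (1 / 2 + 1 / (2 * k))) =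
    (1 - t * p) * ((p + (q + r) - t) ^ 2 * (1 + k / 2) +
      (1 - p ^ 2 - (q + r) ^ 2 / 2) / 3 * (1 / 2 + 1 / (2 * k))) -
      (1 - t * p) * (1 + 1 / k) * (q - r) ^ 2 / 12 := by
    rw [e4]; field_simp; ring
  have e6 : 8 * (q * r) * F = 2 * (q + r) ^ 2 * F - 2 * F * (q - r) ^ 2 := by ring
  have key : (1 - t * p) * ((p + q + r - t) ^ 2 * (1 + k / 2) + vv p q r * (1 / 2 + 1 / (2 * k))) +
    (3 * (t * p) - 1) * Kb (vv p q r) (t + p - q - r) +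
    (1 - t * p) * Kb (vv p q r) (t - p + q + r) < 8 * (q * r) * F := by
    rw [e5, e6]
    nlinarith
  rcases le_total 0 (p + q + r - t) with h0 | h0
  · exact Or.inr (Or.inl ⟨h0, k, hk, key⟩)
  · refine Or.inr (Or.inr ⟨h0, ?_⟩)
    unfold Giii
    refine lt_of_le_of_lt ?_ key
    have : (1 - t * p) * (vv p q r / 2) ≤
        (1 - t * p) * ((p + q + r - t) ^ 2 * (1 + k / 2) + vv p q r * (1 / 2 + 1 / (2 * k))) := by
      refine mul_le_mul_of_nonneg_left ?_ hA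
      have h3 : 0 ≤ (p + q + r - t) ^ 2 * (1 + k / 2) := by positivity
      have h4 : 0 ≤ vv p q r * (1 / (2 * k)) := by positivity
      linarith
    linarith

/-- third alternative at `q = r` -/
theorem beats_iii {t p q r F kb kg : ℝ} (hAF : 24 * F ≤ 1 - t * p) (hF : 0 ≤ F)
    (hc : 0 ≤ 3 * (t * p) - 1) (hs : p + (q + r) ≤ t)
    (h1 : Kb (vv p q r) (t + p - q - r) ≤ kb) (h2 : Kb (vv p q r) (t - p + q + r) ≤ kg)
    (h : 0 < 2 * (q + r) ^ 2 * F -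
      (1 - t * p) * ((1 - p ^ 2 - (q + r) ^ 2 / 2) / 6) -
      (3 * (t * p) - 1) * kb - (1 - t * p) * kg) : Beats t p q r F := by
  refine Or.inr (Or.inr ⟨by linarith, ?_⟩)
  unfold Giii
  have hA : 0 ≤ 1 - t * p := by linarith
  have e1 := mul_le_mul_of_nonneg_left h1 hc
  have e2 := mul_le_mul_of_nonneg_left h2 hA
  have e3 : 0 ≤ (1 - t * p - 24 * F) * (q - r) ^ 2 := mul_nonneg (by linarith) (sq_nonneg _)
  have e4 : vv p q r = (1 - p ^ 2 - (q + r) ^ 2 / 2) / 3 - (q - r) ^ 2 / 6 := by unfold vv; ring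
  have e5 : (1 - t * p) * (vv p q r / 2) = (1 - t * p) * ((1 - p ^ 2 - (q + r) ^ 2 / 2) / 6) -
      (1 - t * p) * (q - r) ^ 2 / 12 := by rw [e4]; ring
  have e6 : 8 * (q * r) * F = 2 * (q + r) ^ 2 * F - 2 * F * (q - r) ^ 2 := by ring
  rw [e5, e6]
  nlinarith

end Pool.Agent.Helper89.SP
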