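import Pool.Agent.Helper63.SP.Red

/-!
Project SP (MP_66ebcc_gt): reduction of `Beats` to the two extreme values of `q - r`.
-/

set_option autoImplicit false

open Real

namespace Pool.Agent.Helper89.SP

theorem lin_sq {D c w W : ℝ} (h0 : 0 < D) (h1 : 0 < D + W ^ 2 * c) (hw0 : 0 ≤ w) (hw : w ≤ W) :
    0 < D + w ^ 2 * c := by
  have h2 : w ^ 2 ≤ W ^ 2 := pow_le_pow_left₀ hw0 hw 2
  rcases le_total 0 c with hc | hc
  · have := mul_nonneg (sq_nonneg w) hc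
    linarith
  · have := mul_le_mul_of_nonpos_right h2 hc
    linarith

/-- first alternative; `0 ≤ q - r ≤ W` -/
theorem beats_i2 {t p q r F kb kg : ℝ} (W : ℝ) (hw0 : r ≤ q) (hw : q - r ≤ W)
    (hA : 0 ≤ 1 - t * p) (hc : 0 ≤ 4 * (t * p) - 2)
    (h1 : Kb (vv p q r) (t + p - q - r) ≤ kb) (h2 : Kb (vv p q r) (t - p + q + r) ≤ kg)
    (h : 0 < 2 * (q + r) ^ 2 * F -
      (1 - t * p) * ((p + (q + r) - t) ^ 2 + (1 - p ^ 2 - (q + r) ^ 2 / 2) / 3) -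
      (4 * (t * p) - 2) * kb - (1 - t * p) * kg)
    (h' : 0 < 2 * (q + r) ^ 2 * F -
      (1 - t * p) * ((p + (q + r) - t) ^ 2 + (1 - p ^ 2 - (q + r) ^ 2 / 2) / 3) -
      (4 * (t * p) - 2) * kb - (1 - t * p) * kg + W ^ 2 * ((1 - t * p) / 6 - 2 * F)) :
    Beats t p q r F := by
  left
  unfold Gi
  rw [max_eq_left hc]
  have e1 := mul_le_mul_of_nonneg_left h1 hc
  have e2 := mul_le_mul_of_nonneg_left h2 hA
  have e3 := lin_sq h h' (sub_nonneg.mpr hw0) hw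
  have e4 : vv p q r = (1 - p ^ 2 - (q + r) ^ 2 / 2) / 3 - (q - r) ^ 2 / 6 := by unfold vv; ring
  have e5 : (1 - t * p) * ((p + q + r - t) ^ 2 + vv p q r) =
    (1 - t * p) * ((p + (q + r) - t) ^ 2 + (1 - p ^ 2 - (q + r) ^ 2 / 2) / 3) -
      (1 - t * p) * (q - r) ^ 2 / 6 := by rw [e4]; ring
  have e6 : 8 * (q * r) * F = 2 * (q + r) ^ 2 * F - 2 * F * (q - r) ^ 2 := by ring
  rw [e5, e6]
  linarith

/-- first alternative, for `4 t p ≤ 2`; `0 ≤ q - r ≤ W` -/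
theorem beats_i2' {t p q r F kg : ℝ} (W : ℝ) (hw0 : r ≤ q) (hw : q - r ≤ W)
    (hA : 0 ≤ 1 - t * p) (hc : 4 * (t * p) - 2 ≤ 0)
    (h2 : Kb (vv p q r) (t - p + q + r) ≤ kg)
    (h : 0 < 2 * (q + r) ^ 2 * F -
      (1 - t * p) * ((p + (q + r) - t) ^ 2 + (1 - p ^ 2 - (q + r) ^ 2 / 2) / 3) -
      (1 - t * p) * kg)
    (h' : 0 < 2 * (q + r) ^ 2 * F -
      (1 - t * p) * ((p + (q + r) - t) ^ 2 + (1 - p ^ 2 - (q + r) ^ 2 / 2) / 3) -
      (1 - t * p) * kg + W ^ 2 * ((1 - t * p) / 6 - 2 * F)) :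
    Beats t p q r F := by
  left
  unfold Gi
  rw [max_eq_right hc]
  have e2 := mul_le_mul_of_nonneg_left h2 hA
  have e3 := lin_sq h h' (sub_nonneg.mpr hw0) hw
  have e4 : vv p q r = (1 - p ^ 2 - (q + r) ^ 2 / 2) / 3 - (q - r) ^ 2 / 6 := by unfold vv; ring
  have e5 : (1 - t * p) * ((p + q + r - t) ^ 2 + vv p q r) =
    (1 - t * p) * ((p + (q + r) - t) ^ 2 + (1 - p ^ 2 - (q + r) ^ 2 / 2) / 3) -
      (1 - t * p) * (q - r) ^ 2 / 6 := by rw [e4]; ring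
  have e6 : 8 * (q * r) * F = 2 * (q + r) ^ 2 * F - 2 * F * (q - r) ^ 2 := by ring
  rw [e5, e6]
  linarith

/-- second or third alternative; `0 ≤ q - r ≤ W` -/
theorem beats_ii2 {t p q r F kb kg : ℝ} (k W : ℝ) (hk : 0 < k) (hw0 : r ≤ q) (hw : q - r ≤ W)
    (hA : 0 ≤ 1 - t * p) (hv : 0 ≤ vv p q r) (hc : 0 ≤ 3 * (t * p) - 1)
    (h1 : Kb (vv p q r) (t + p - q - r) ≤ kb) (h2 : Kb (vv p q r) (t - p + q + r) ≤ kg)
    (h : 0 < 2 * (q + r) ^ 2 * F -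
      (1 - t * p) * ((p + (q + r) - t) ^ 2 * (1 + k / 2) +
        (1 - p ^ 2 - (q + r) ^ 2 / 2) / 3 * (1 / 2 + 1 / (2 * k))) -
      (3 * (t * p) - 1) * kb - (1 - t * p) * kg)
    (h' : 0 < 2 * (q + r) ^ 2 * F -
      (1 - t * p) * ((p + (q + r) - t) ^ 2 * (1 + k / 2) +
        (1 - p ^ 2 - (q + r) ^ 2 / 2) / 3 * (1 / 2 + 1 / (2 * k))) -
      (3 * (t * p) - 1) * kb - (1 - t * p) * kg +
      W ^ 2 * ((1 - t * p) * (1 + 1 / k) / 12 - 2 * F)) : Beats t p q r F := by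
  have e1 := mul_le_mul_of_nonneg_left h1 hc
  have e2 := mul_le_mul_of_nonneg_left h2 hA
  have e3 := lin_sq h h' (sub_nonneg.mpr hw0) hw
  have e4 : vv p q r = (1 - p ^ 2 - (q + r) ^ 2 / 2) / 3 - (q - r) ^ 2 / 6 := by unfold vv; ring
  have e5 : (1 - t * p) * ((p + q + r - t) ^ 2 * (1 + k / 2) + vv p q r * (1 / 2 + 1 / (2 * k))) =
    (1 - t * p) * ((p + (q + r) - t) ^ 2 * (1 + k / 2) +
      (1 - p ^ 2 - (q + r) ^ 2 / 2) / 3 * (1 / 2 + 1 / (2 * k))) -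
      (1 - t * p) * (1 + 1 / k) * (q - r) ^ 2 / 12 := by
    rw [e4]; field_simp; ring
  have e6 : 8 * (q * r) * F = 2 * (q + r) ^ 2 * F - 2 * F * (q - r) ^ 2 := by ring
  have key : (1 - t * p) * ((p + q + r - t) ^ 2 * (1 + k / 2) + vv p q r * (1 / 2 + 1 / (2 * k))) +
    (3 * (t * p) - 1) * Kb (vv p q r) (t + p - q - r) +
    (1 - t * p) * Kb (vv p q r) (t - p + q + r) < 8 * (q * r) * F := by
    rw [e5, e6]
    linarith
  rcases le_total 0 (p + q + r - t) with h0 | h0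
  · exact Or.inr (Or.inl ⟨h0, k, hk, key⟩)
  · refine Or.inr (Or.inr ⟨h0, ?_⟩)
    unfold Giii
    refine lt_of_le_of_lt ?_ key
    have : (1 - t * p) * (vv p q r / 2) ≤
        (1 - t * p) * ((p + q + r - t) ^ 2 * (1 + k / 2) + vv p q r * (1 / 2 + 1 / (2 * k))) := by
      refine mul_le_mul_of_nonneg_left ?_ hA
      have h3 : 0 ≤ (p + q + r - t) ^ 2 * (1 + k / 2) := by positivity
      have h4 : 0 ≤ vv p q r * (1 / (2 * k)) := by positivity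
      linarith
    linarith

/-- third alternative; `0 ≤ q - r ≤ W` -/
theorem beats_iii2 {t p q r F kb kg : ℝ} (W : ℝ) (hw0 : r ≤ q) (hw : q - r ≤ W)
    (hA : 0 ≤ 1 - t * p) (hc : 0 ≤ 3 * (t * p) - 1) (hs : p + (q + r) ≤ t)
    (h1 : Kb (vv p q r) (t + p - q - r) ≤ kb) (h2 : Kb (vv p q r) (t - p + q + r) ≤ kg)
    (h : 0 < 2 * (q + r) ^ 2 * F -
      (1 - t * p) * ((1 - p ^ 2 - (q + r) ^ 2 / 2) / 6) -
      (3 * (t * p) - 1) * kb - (1 - t * p) * kg)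
    (h' : 0 < 2 * (q + r) ^ 2 * F -
      (1 - t * p) * ((1 - p ^ 2 - (q + r) ^ 2 / 2) / 6) -
      (3 * (t * p) - 1) * kb - (1 - t * p) * kg + W ^ 2 * ((1 - t * p) / 12 - 2 * F)) :
    Beats t p q r F := by
  refine Or.inr (Or.inr ⟨by linarith, ?_⟩)
  unfold Giii
  have e1 := mul_le_mul_of_nonneg_left h1 hc
  have e2 := mul_le_mul_of_nonneg_left h2 hA
  have e3 := lin_sq h h' (sub_nonneg.mpr hw0) hw
  have e4 : vv p q r = (1 - p ^ 2 - (q + r) ^ 2 / 2) / 3 - (q - r) ^ 2 / 6 := by unfold vv; ring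
  have e5 : (1 - t * p) * (vv p q r / 2) = (1 - t * p) * ((1 - p ^ 2 - (q + r) ^ 2 / 2) / 6) -
      (1 - t * p) * (q - r) ^ 2 / 12 := by rw [e4]; ring
  have e6 : 8 * (q * r) * F = 2 * (q + r) ^ 2 * F - 2 * F * (q - r) ^ 2 := by ring
  rw [e5, e6]
  linarith

/-- `Beats` is monotone in the value -/
theorem Beats.mono {t p q r F F' : ℝ} (h : Beats t p q r F) (hF : F ≤ F') (hq : 0 ≤ q)
    (hr : 0 ≤ r) : Beats t p q r F' := by
  have h1 : 8 * (q * r) * F ≤ 8 * (q * r) * F' := mul_le_mul_of_nonneg_left hF (by positivity)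
  rcases h with h | ⟨h0, k, hk, h⟩ | ⟨h0, h⟩
  · exact Or.inl (h.trans_le h1)
  · exact Or.inr (Or.inl ⟨h0, k, hk, h.trans_le h1⟩)
  · exact Or.inr (Or.inr ⟨h0, h.trans_le h1⟩)

end Pool.Agent.Helper89.SP
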